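import Mathlib

/-!
# Polynomials over a prime field with range sum `p`: the lower bound `2(p-1)/3` fails

For a prime `p > 5` with `p ≡ 2 (mod 3)` and `b ≠ 0` in `𝔽_p`, let `P` be the reduced polynomial
whose value at `a` is the number of `z ∈ 𝔽_p` with `z³ + b z = a`.  It has range sum `p` and degree
`2(p-2)/3 < 2(p-1)/3`.
-/

open Polynomial

namespace Pool.Agent.Results.MP_6cfadd_nt.CubicPreimages

/-- The range sum of `P`: the sum of the values `P(x)`, `x ∈ 𝔽_p`, read as integers in
`{0, …, p - 1}`. -/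
noncomputable def rangeSum (p : ℕ) [Fact p.Prime] (P : (ZMod p)[X]) : ℕ :=
  ∑ x : ZMod p, (P.eval x).val

/-- The reference polynomial `E₁ = x^{(p-1)/2} + 1`. -/
noncomputable def refOne (p : ℕ) : (ZMod p)[X] := X ^ ((p - 1) / 2) + 1

/-- The reference polynomial `E₂ = ((p+1)/2) (x^{(p-1)/2} + 1)`. -/
noncomputable def refTwo (p : ℕ) : (ZMod p)[X] :=
  C (((p + 1) / 2 : ℕ) : ZMod p) * (X ^ ((p - 1) / 2) + 1)

/-- `P` is an affine translate of `Q`: `P(x) = Q(ax+b)` for some `a ≠ 0` and `b`. -/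
def IsTranslate {p : ℕ} (P Q : (ZMod p)[X]) : Prop :=
  ∃ a b : ZMod p, a ≠ 0 ∧ ∀ x : ZMod p, P.eval x = Q.eval (a * x + b)

/-- The hypotheses of the question on `P`: reduced, not the constant `1`, of range sum `p`, and not
an affine translate of a reference polynomial. -/
def Admissible (p : ℕ) [Fact p.Prime] (P : (ZMod p)[X]) : Prop :=
  P.natDegree ≤ p - 1 ∧ P ≠ 1 ∧ rangeSum p P = p ∧
    ¬ IsTranslate P (refOne p) ∧ ¬ IsTranslate P (refTwo p)

/-- The statement asked for in Q1. -/
def QuestionOne : Prop :=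
  ∃ p₀ : ℕ, ∀ (p : ℕ) [Fact p.Prime], p₀ < p → ∀ P : (ZMod p)[X], Admissible p P →
    (2 / 3 : ℚ) * ((p : ℚ) - 1) ≤ (P.natDegree : ℚ)

/-! ### Power sums over a prime field -/

/-- The values of a polynomial of degree less than `p - 1` sum to zero. -/
theorem sum_eval_eq_zero (p : ℕ) [Fact p.Prime] (P : (ZMod p)[X]) (h : P.natDegree < p - 1) :
    ∑ y : ZMod p, P.eval y = 0 := by
  simp only [eval_eq_sum_range]
  rw [Finset.sum_comm]
  apply Finset.sum_eq_zero
  intro i hi
  rw [← Finset.mul_sum, FiniteField.sum_pow_lt_card_sub_one, mul_zero]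
  rw [ZMod.card]
  have := Finset.mem_range.mp hi
  omega

theorem sum_pow_card_sub_one (p : ℕ) [Fact p.Prime] :
    ∑ z : ZMod p, z ^ (p - 1) = -1 := by
  classical
  have hp : 1 < p := (Fact.out : p.Prime).one_lt
  have h : ∀ z : ZMod p, z ^ (p - 1) = 1 - (if z = 0 then 1 else 0) := by
    intro z
    by_cases hz : z = 0
    · rw [hz, if_pos rfl, zero_pow (by omega), sub_self]
    · rw [if_neg hz, sub_zero, ZMod.pow_card_sub_one_eq_one hz]
  rw [Finset.sum_congr rfl fun z _ => h z, Finset.sum_sub_distrib, Finset.sum_const,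
    Finset.card_univ, ZMod.card, Finset.sum_ite_eq' Finset.univ (0 : ZMod p),
    if_pos (Finset.mem_univ _)]
  simp

/-- The first power sum of the cubic that does not vanish. -/
theorem sum_cubic_pow (p : ℕ) [Fact p.Prime] (j : ℕ) (hj : 3 * j = p + 1) (h5 : 5 < p)
    (b : ZMod p) : ∑ z : ZMod p, (z ^ 3 + b * z) ^ j = -((j : ZMod p) * b) := by
  have hexp : ∀ z : ZMod p, (z ^ 3 + b * z) ^ j =
      ∑ i ∈ Finset.range (j + 1), (j.choose i : ZMod p) * b ^ i * z ^ (3 * j - 2 * i) := by
    intro z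
    rw [add_comm, add_pow]
    apply Finset.sum_congr rfl
    intro i hi
    have hi' : i ≤ j := by have := Finset.mem_range.mp hi; omega
    rw [mul_pow, ← pow_mul, show 3 * j - 2 * i = i + 3 * (j - i) by omega, pow_add]
    ring
  rw [Finset.sum_congr rfl fun z _ => hexp z, Finset.sum_comm]
  have hterm : ∀ i ∈ Finset.range (j + 1), i ≠ 1 →
      ∑ z : ZMod p, (j.choose i : ZMod p) * b ^ i * z ^ (3 * j - 2 * i) = 0 := by
    intro i hi h1
    rw [← Finset.mul_sum]
    rcases Nat.eq_zero_or_pos i with h0 | hpos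
    · have h2 : ∀ z : ZMod p, z ^ (3 * j - 2 * i) = z ^ 2 := by
        intro z
        rw [h0, show 3 * j - 2 * 0 = p + 1 by omega, pow_succ, ZMod.pow_card, pow_two]
      rw [Finset.sum_congr rfl fun z _ => h2 z, FiniteField.sum_pow_lt_card_sub_one, mul_zero]
      rw [ZMod.card]; omega
    · rw [FiniteField.sum_pow_lt_card_sub_one, mul_zero]
      rw [ZMod.card]; omega
  rw [Finset.sum_eq_single_of_mem 1 (by rw [Finset.mem_range]; omega) hterm, ← Finset.mul_sum,
    show 3 * j - 2 * 1 = p - 1 by omega, sum_pow_card_sub_one]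
  simp

/-! ### The polynomial counting preimages -/

/-- The polynomial whose value at `a` is the number of `z` with `z³ + b z = a`. -/
noncomputable def cubicPoly (p : ℕ) [Fact p.Prime] (b : ZMod p) : (ZMod p)[X] :=
  -∑ z : ZMod p, (X - C (z ^ 3 + b * z)) ^ (p - 1)

theorem eval_cubicPoly (p : ℕ) [Fact p.Prime] (b a : ZMod p) :
    (cubicPoly p b).eval a =
      ((Finset.univ.filter fun z : ZMod p => z ^ 3 + b * z = a).card : ZMod p) := by
  classical
  have hp : 1 < p := (Fact.out : p.Prime).one_lt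
  unfold cubicPoly
  rw [eval_neg, eval_finsetSum]
  have h : ∀ z : ZMod p, ((X - C (z ^ 3 + b * z)) ^ (p - 1)).eval a =
      1 - (if z ^ 3 + b * z = a then 1 else 0) := by
    intro z
    rw [eval_pow, eval_sub, eval_X, eval_C]
    by_cases hz : z ^ 3 + b * z = a
    · rw [if_pos hz, hz, sub_self, zero_pow (by omega), sub_self]
    · rw [if_neg hz, sub_zero, ZMod.pow_card_sub_one_eq_one (sub_ne_zero.mpr (Ne.symm hz))]
  rw [Finset.sum_congr rfl fun z _ => h z, Finset.sum_sub_distrib, Finset.sum_const,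
    Finset.card_univ, ZMod.card, Finset.sum_boole]
  simp

theorem coeff_cubicPoly (p : ℕ) [Fact p.Prime] (b : ZMod p) (i : ℕ) :
    (cubicPoly p b).coeff i = -((-1) ^ (p - 1 - i) * ((p - 1).choose i : ZMod p) *
      ∑ z : ZMod p, (z ^ 3 + b * z) ^ (p - 1 - i)) := by
  unfold cubicPoly
  rw [coeff_neg, finsetSum_coeff, Finset.mul_sum]
  congr 1
  apply Finset.sum_congr rfl
  intro z _
  rw [sub_eq_add_neg, ← C_neg, coeff_X_add_C_pow, neg_pow]
  ring

theorem natDegree_cubicPoly (p : ℕ) [Fact p.Prime] (h5 : 5 < p) (h3 : p % 3 = 2) (b : ZMod p)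
    (hb : b ≠ 0) : (cubicPoly p b).natDegree = 2 * (p - 2) / 3 := by
  obtain ⟨j, hj⟩ : ∃ j, 3 * j = p + 1 := ⟨(p + 1) / 3, by omega⟩
  have hdeg : 2 * (p - 2) / 3 = p - 1 - j := by omega
  rw [hdeg]
  apply natDegree_eq_of_le_of_coeff_ne_zero
  · rw [natDegree_le_iff_coeff_eq_zero]
    intro i hi
    rw [coeff_cubicPoly]
    rcases lt_or_ge (p - 1) i with h | h
    · rw [Nat.choose_eq_zero_of_lt h]
      simp
    · have hz : ∑ z : ZMod p, (z ^ 3 + b * z) ^ (p - 1 - i) = 0 := by
        have hs : ∀ z : ZMod p, (z ^ 3 + b * z) ^ (p - 1 - i) =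
            ((X ^ 3 + C b * X) ^ (p - 1 - i) : (ZMod p)[X]).eval z := by
          intro z; simp
        rw [Finset.sum_congr rfl fun z _ => hs z]
        apply sum_eval_eq_zero
        refine lt_of_le_of_lt natDegree_pow_le ?_
        have h4 : (X ^ 3 + C b * X : (ZMod p)[X]).natDegree ≤ 3 := by
          refine (natDegree_add_le _ _).trans ?_
          rw [natDegree_X_pow]
          refine max_le le_rfl ((natDegree_C_mul_le _ _).trans ?_)
          rw [natDegree_X]; norm_num
        have h6 : (p - 1 - i) * (X ^ 3 + C b * X : (ZMod p)[X]).natDegree ≤ (p - 1 - i) * 3 :=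
          Nat.mul_le_mul_left _ h4
        omega
      rw [hz, mul_zero, neg_zero]
  · rw [coeff_cubicPoly, show p - 1 - (p - 1 - j) = j by omega, sum_cubic_pow p j hj h5 b]
    have hj0 : (j : ZMod p) ≠ 0 := by
      intro h
      have h1 : ((3 * j : ℕ) : ZMod p) = 1 := by
        rw [hj]; push_cast; rw [CharP.cast_eq_zero, zero_add]
      push_cast at h1
      rw [h, mul_zero] at h1
      exact zero_ne_one h1
    have hch : ((p - 1).choose (p - 1 - j) : ZMod p) ≠ 0 := by
      rw [Ne, CharP.cast_eq_zero_iff (ZMod p) p]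
      intro hdvd
      have h1 : p ∣ (p - 1).factorial := by
        have h2 := Nat.choose_mul_factorial_mul_factorial (show p - 1 - j ≤ p - 1 by omega)
        rw [← h2]
        exact Dvd.dvd.mul_right (Dvd.dvd.mul_right hdvd _) _
      have h2 := ((Fact.out : p.Prime).dvd_factorial).mp h1
      omega
    have hneg : ((-1 : ZMod p)) ^ j ≠ 0 := pow_ne_zero _ (neg_ne_zero.mpr one_ne_zero)
    exact neg_ne_zero.mpr (mul_ne_zero (mul_ne_zero hneg hch)
      (neg_ne_zero.mpr (mul_ne_zero hj0 hb)))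

theorem card_fibre_le (p : ℕ) [Fact p.Prime] (b a : ZMod p) :
    (Finset.univ.filter fun z : ZMod p => z ^ 3 + b * z = a).card ≤ 3 := by
  classical
  have hq : (X ^ 3 + (C b * X - C a) : (ZMod p)[X]).natDegree = 3 := by
    rw [natDegree_add_eq_left_of_natDegree_lt, natDegree_X_pow]
    rw [natDegree_X_pow]
    refine lt_of_le_of_lt (natDegree_sub_le _ _) ?_
    rw [natDegree_C]
    refine max_lt (lt_of_le_of_lt (natDegree_C_mul_le _ _) ?_) (by norm_num)
    rw [natDegree_X]; norm_num
  have hne : (X ^ 3 + (C b * X - C a) : (ZMod p)[X]) ≠ 0 := by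
    intro h
    rw [h, natDegree_zero] at hq
    omega
  calc (Finset.univ.filter fun z : ZMod p => z ^ 3 + b * z = a).card
      ≤ (X ^ 3 + (C b * X - C a) : (ZMod p)[X]).roots.toFinset.card := by
        apply Finset.card_le_card
        intro z hz
        rw [Multiset.mem_toFinset, mem_roots hne, IsRoot.def]
        have := (Finset.mem_filter.mp hz).2
        simp only [eval_add, eval_sub, eval_pow, eval_X, eval_mul, eval_C]
        linear_combination this
    _ ≤ Multiset.card (X ^ 3 + (C b * X - C a) : (ZMod p)[X]).roots :=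
        Multiset.toFinset_card_le _
    _ ≤ (X ^ 3 + (C b * X - C a) : (ZMod p)[X]).natDegree := card_roots' _
    _ = 3 := hq

theorem rangeSum_cubicPoly (p : ℕ) [Fact p.Prime] (h5 : 5 < p) (b : ZMod p) :
    rangeSum p (cubicPoly p b) = p := by
  classical
  unfold rangeSum
  have h : ∀ a : ZMod p, ((cubicPoly p b).eval a).val =
      (Finset.univ.filter fun z : ZMod p => z ^ 3 + b * z = a).card := by
    intro a
    rw [eval_cubicPoly, ZMod.val_cast_of_lt]
    have := card_fibre_le p b a
    omega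
  rw [Finset.sum_congr rfl fun a _ => h a]
  have h2 := Finset.card_eq_sum_card_fiberwise (s := (Finset.univ : Finset (ZMod p)))
    (t := (Finset.univ : Finset (ZMod p))) (f := fun z : ZMod p => z ^ 3 + b * z)
    (fun z _ => Finset.mem_univ _)
  rw [Finset.card_univ, ZMod.card] at h2
  exact h2.symm

/-! ### The main theorem -/

/-- A polynomial of degree above `(p-1)/2` is no affine translate of one of degree `(p-1)/2`. -/
theorem not_isTranslate (p : ℕ) [Fact p.Prime] (P Q : (ZMod p)[X]) (hP : P.natDegree < p)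
    (hQ : Q.natDegree < P.natDegree) : ¬ IsTranslate P Q := by
  rintro ⟨a, b, ha, h⟩
  have hcomp : (Q.comp (C a * X + C b)).natDegree = Q.natDegree := by
    rw [natDegree_comp, natDegree_linear ha, mul_one]
  have heq : P = Q.comp (C a * X + C b) := by
    apply eq_of_degrees_lt_of_eval_finset_eq (Finset.univ : Finset (ZMod p))
    · rw [Finset.card_univ, ZMod.card]
      exact lt_of_le_of_lt degree_le_natDegree (by exact_mod_cast hP)
    · rw [Finset.card_univ, ZMod.card]
      refine lt_of_le_of_lt degree_le_natDegree ?_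
      have : (Q.comp (C a * X + C b)).natDegree < p := by omega
      exact_mod_cast this
    · intro x _
      rw [h x, eval_comp]
      simp
  rw [heq, hcomp] at hQ
  exact lt_irrefl _ hQ

theorem natDegree_refOne_le (p : ℕ) [Fact p.Prime] : (refOne p).natDegree ≤ (p - 1) / 2 := by
  unfold refOne
  refine (natDegree_add_le _ _).trans ?_
  rw [natDegree_X_pow, natDegree_one]
  simp

theorem natDegree_refTwo_le (p : ℕ) [Fact p.Prime] : (refTwo p).natDegree ≤ (p - 1) / 2 := by
  unfold refTwo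
  exact (natDegree_C_mul_le _ _).trans (natDegree_refOne_le p)

/-- **Negative answer to Q1.**  Let `p > 5` be a prime with `p ≡ 2 (mod 3)` and `b ≠ 0` in `𝔽_p`.
The polynomial `P` over `𝔽_p` that counts the solutions `z` of `z³ + b z = a` has range sum `p`, is
not the constant `1` and no affine translate of `E₁` or `E₂`, and its degree is
`2(p-2)/3 < 2(p-1)/3`.  Hence there are infinitely many primes with such a polynomial, and Q1 is
false. -/
theorem result :
    (∀ (p : ℕ) [Fact p.Prime], 5 < p → p % 3 = 2 → ∀ b : ZMod p, b ≠ 0 →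
      ∃ P : (ZMod p)[X],
        (∀ a : ZMod p, P.eval a =
          ((Finset.univ.filter fun z : ZMod p => z ^ 3 + b * z = a).card : ZMod p)) ∧
        P.natDegree = 2 * (p - 2) / 3 ∧
        (P.natDegree : ℚ) = (2 / 3 : ℚ) * ((p : ℚ) - 1) - 2 / 3 ∧
        Admissible p P) ∧
    (∀ N : ℕ, ∃ p : ℕ, N < p ∧ ∃ _ : Fact p.Prime, ∃ P : (ZMod p)[X], Admissible p P ∧
      (P.natDegree : ℚ) < (2 / 3 : ℚ) * ((p : ℚ) - 1)) ∧
    ¬ QuestionOne := by
  have main : ∀ (p : ℕ) [Fact p.Prime], 5 < p → p % 3 = 2 → ∀ b : ZMod p, b ≠ 0 →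
      ∃ P : (ZMod p)[X],
        (∀ a : ZMod p, P.eval a =
          ((Finset.univ.filter fun z : ZMod p => z ^ 3 + b * z = a).card : ZMod p)) ∧
        P.natDegree = 2 * (p - 2) / 3 ∧
        (P.natDegree : ℚ) = (2 / 3 : ℚ) * ((p : ℚ) - 1) - 2 / 3 ∧
        Admissible p P := by
    intro p _ h5 h3 b hb
    have hodd : p % 2 = 1 := by
      rcases (Fact.out : p.Prime).eq_two_or_odd with h | h
      · omega
      · exact h
    have hdeg := natDegree_cubicPoly p h5 h3 b hb
    refine ⟨cubicPoly p b, fun a => eval_cubicPoly p b a, hdeg, ?_, by omega, ?_,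
      rangeSum_cubicPoly p h5 b, ?_, ?_⟩
    · have h4 : 3 * (cubicPoly p b).natDegree + 4 = 2 * p := by omega
      have h6 : (3 : ℚ) * ((cubicPoly p b).natDegree : ℚ) + 4 = 2 * (p : ℚ) := by
        exact_mod_cast h4
      linarith
    · intro h
      rw [h, natDegree_one] at hdeg
      omega
    · apply not_isTranslate p _ _ (by omega)
      have := natDegree_refOne_le p
      omega
    · apply not_isTranslate p _ _ (by omega)
      have := natDegree_refTwo_le p
      omega
  have inf : ∀ N : ℕ, ∃ p : ℕ, N < p ∧ ∃ _ : Fact p.Prime, ∃ P : (ZMod p)[X], Admissible p P ∧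
      (P.natDegree : ℚ) < (2 / 3 : ℚ) * ((p : ℚ) - 1) := by
    intro N
    obtain ⟨p, hgt, hprime, hmod⟩ := Nat.forall_exists_prime_gt_and_modEq (max N 5)
      (q := 3) (a := 2) (by norm_num) (by norm_num)
    have hF : Fact p.Prime := ⟨hprime⟩
    have hmod' : p % 3 = 2 := by
      have := hmod
      unfold Nat.ModEq at this
      omega
    obtain ⟨P, _, _, h3, h4⟩ := main p (by omega) hmod' 1 one_ne_zero
    exact ⟨p, by omega, hF, P, h4, by rw [h3]; linarith⟩
  refine ⟨main, inf, ?_⟩
  rintro ⟨p₀, h⟩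
  obtain ⟨p, hgt, hF, P, hP, hlt⟩ := inf p₀
  exact absurd (h p hgt P hP) (not_le.mpr hlt)

end Pool.Agent.Results.MP_6cfadd_nt.CubicPreimages
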